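import Mathlib
import Pool.Agent.Q176.ThetaLat2

namespace Pool.Agent.Results.MP_e166ae_gt.FccNotMax

open Q176.ThetaLat Real

/-- the face-centred-cubic lattice `D₃` of covolume one -/
noncomputable def D3 : Submodule ℤ (E 3) :=
  Submodule.span ℤ {((2 : ℝ) ^ (-(1 / 3) : ℝ)) • (!₂[1, 0, 1] : E 3),
    ((2 : ℝ) ^ (-(1 / 3) : ℝ)) • (!₂[0, 1, 1] : E 3),
    ((2 : ℝ) ^ (-(1 / 3) : ℝ)) • (!₂[1, 1, 0] : E 3)}

/-- `R₃ = 2^{-5/6}` -/
noncomputable def R3 : ℝ := (2 : ℝ) ^ (-(5 / 6) : ℝ)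

/-- **MP_e166ae_gt, Q2 (disproved, for every `R`).** For every `0 < R ≤ R₃` the functional
`𝓕_{σ_R}^{10/π}` is unbounded above on `𝓛₃(1)`; in particular `D₃` is not its unique maximiser
(there is no maximiser). -/
theorem result (R : ℝ) (hR : 0 < R) (_hR3 : R ≤ R3) :
    (∀ M : ℝ, ∃ L : Submodule ℤ (E 3), IsLattice1 L ∧ M < Fisher (10 / π) R L) ∧
      ¬ IsUniqueMaximiser (10 / π) R D3 :=
  ⟨fun M => exists_large 1 (by positivity) hR M, not_isUniqueMaximiser 1 (by positivity) hR D3⟩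

end Pool.Agent.Results.MP_e166ae_gt.FccNotMax
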