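import Mathlib
import Pool.Agent.Q176.ThetaLat2

namespace Pool.Agent.Results.MP_e166ae_gt.TriangularNotMax

open Q176.ThetaLat Real

/-- the triangular lattice `A₂` of covolume one -/
noncomputable def A2 : Submodule ℤ (E 2) :=
  Submodule.span ℤ {√(2 / √3) • (!₂[1, 0] : E 2), √(2 / √3) • (!₂[1 / 2, √3 / 2] : E 2)}

/-- `R₂ = ½ √(2/√3)` -/
noncomputable def R2 : ℝ := 1 / 2 * √(2 / √3)

/-- **MP_e166ae_gt, Q1 (disproved, for every `R`).** For every `0 < R ≤ R₂` the functional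
`𝓕_{σ_R}^{10/π}` is unbounded above on `𝓛₂(1)`; in particular `A₂` is not its unique maximiser
(there is no maximiser). -/
theorem result (R : ℝ) (hR : 0 < R) (_hR2 : R ≤ R2) :
    (∀ M : ℝ, ∃ L : Submodule ℤ (E 2), IsLattice1 L ∧ M < Fisher (10 / π) R L) ∧
      ¬ IsUniqueMaximiser (10 / π) R A2 :=
  ⟨fun M => exists_large 0 (by positivity) hR M, not_isUniqueMaximiser 0 (by positivity) hR A2⟩

end Pool.Agent.Results.MP_e166ae_gt.TriangularNotMax
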